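import Pool.Agent.H55.Cube.Cert345

/-!
# MP_842ac8_co: `k(3d, 4d, 5d) = 2` for every `d ≥ 1`
-/

open MeasureTheory Set
open scoped Pointwise

namespace Pool.Agent.Results.MP_842ac8_co.ThreeFourFive

open Pool.Agent.H55.Cube

theorem glue_of_eq {k : ℕ} (P : Fin k → Set Plane) (I : Set (Fin k))
    (hd : ∀ i j, i ≠ j → Disjoint (interior (P i)) (interior (P j))) :
    GlueInto P I (⋃ i ∈ I, P i) := by
  have him : ∀ S : Set Plane, (IsometryEquiv.refl Plane) '' S = S := fun S => image_id S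
  refine ⟨fun _ => IsometryEquiv.refl _, fun i _ => him _, fun i _ j _ hij => ?_, ?_⟩
  · rw [him, him]; exact hd i j hij
  · simp only [him]

theorem upper (d : ℕ) (hd : 0 < d) : Admissible (3 * d) (4 * d) (5 * d) 2 := by
  have hdr : (0 : ℝ) < d := by exact_mod_cast hd
  obtain ⟨fc, ac⟩ := folds_of_cert Gc5 Lc5 5 (by norm_num) okc5
  obtain ⟨fa, aa⟩ := folds_of_cert Ga3 La3 3 (by norm_num) oka3
  obtain ⟨fb, ab⟩ := folds_of_cert Gb4 Lb4 4 (by norm_num) okb4
  have key : ∀ {P : Set Plane} {s : ℕ}, 0 < s → FoldsInto P (cubeSurface s) →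
      FoldsInto ((d : ℝ) • P) (cubeSurface ((s * d : ℕ) : ℝ)) := by
    intro P s hs hP
    have := hP.smul hdr
    rw [smul_cubeSurface hdr (by exact_mod_cast hs)] at this
    have e : ((s * d : ℕ) : ℝ) = d * s := by push_cast; ring
    rw [e]; exact this
  have hdis : Disjoint (interior ((d : ℝ) • region La3.toFinset))
      (interior ((d : ℝ) • region Lb4.toFinset)) :=
    disjoint_interior_smul (disjoint_interior disj_ab) hdr.ne'
  set P : Fin 2 → Set Plane := ![(d : ℝ) • region La3.toFinset, (d : ℝ) • region Lb4.toFinset]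
    with hP
  have hPd : ∀ i j, i ≠ j → Disjoint (interior (P i)) (interior (P j)) := by
    intro i j hij
    fin_cases i <;> fin_cases j
    · exact absurd rfl hij
    · exact hdis
    · exact hdis.symm
    · exact absurd rfl hij
  have hA : (d : ℝ) • region La3.toFinset = ⋃ i ∈ ({0} : Set (Fin 2)), P i := by
    simp [hP]
  have hB : (d : ℝ) • region Lb4.toFinset = ⋃ i ∈ ({0}ᶜ : Set (Fin 2)), P i := by
    have : ({0}ᶜ : Set (Fin 2)) = {1} := by
      ext i; fin_cases i <;> simp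
    rw [this]
    simp [hP]
  refine ⟨(d : ℝ) • region Lc5.toFinset, (d : ℝ) • region La3.toFinset,
    (d : ℝ) • region Lb4.toFinset, P, {0}, ⟨?_, key (by norm_num) fc⟩, ⟨?_, hPd, ?_⟩,
    ⟨?_, ⟨_, isPolyominoOfArea_smul aa hd⟩, key (by norm_num) fa⟩,
    ⟨?_, ⟨_, isPolyominoOfArea_smul ab hd⟩, key (by norm_num) fb⟩⟩
  · have := isPolyominoOfArea_smul ac hd
    have e : 6 * (5 * d) ^ 2 = d ^ 2 * Lc5.length := by
      have : Lc5.length = 150 := by decide +kernel
      rw [this]; ring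
    rw [e]; exact this
  · intro i
    fin_cases i
    · exact ⟨_, isPolyominoOfArea_smul aa hd⟩
    · exact ⟨_, isPolyominoOfArea_smul ab hd⟩
  · rw [union_ab, region_union, smul_set_union]
    ext z
    simp [hP, Fin.exists_fin_two]
  · rw [hA]; exact glue_of_eq P _ hPd
  · rw [hB]; exact glue_of_eq P _ hPd

theorem lower (a b c k : ℕ) (h : Admissible a b c k) : 2 ≤ k := by
  obtain ⟨Pc, Pa, Pb, P, I, -, -, ⟨⟨φ, -, -, hPa⟩, ⟨n, F, -, -, hFa⟩, -⟩,
    ⟨φ', -, -, hPb⟩, ⟨n', F', -, -, hFb⟩, -⟩ := h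
  obtain ⟨x, hx⟩ := hFa.nonempty
  obtain ⟨y, hy⟩ := hFb.nonempty
  have hx' : x ∈ ⋃ i ∈ I, φ i '' P i := hPa ▸ interior_subset hx
  have hy' : y ∈ ⋃ i ∈ Iᶜ, φ' i '' P i := hPb ▸ interior_subset hy
  simp only [mem_iUnion, exists_prop] at hx' hy'
  obtain ⟨i, hi, -⟩ := hx'
  obtain ⟨j, hj, -⟩ := hy'
  have hij : i ≠ j := by rintro rfl; exact hj hi
  by_contra hk
  have hi' := i.2
  have hj' := j.2
  exact hij (Fin.ext (by omega))

/-- `k(3d, 4d, 5d) = 2` for every positive integer `d`. -/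
theorem result (d : ℕ) (hd : 0 < d) : IsLeast {k | Admissible (3 * d) (4 * d) (5 * d) k} 2 :=
  ⟨upper d hd, fun k hk => lower _ _ _ k hk⟩

end Pool.Agent.Results.MP_842ac8_co.ThreeFourFive
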